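import Mathlib
import Pool.Agent.X242.FRand

set_option autoImplicit false

/-!
# Fourier submatrices with random row sets: no algorithm saves a single operation

For `d` prime and large, the number of arithmetic operations needed for `F_{RC} v`, for the worst
`C`, `v` and a random `R`, is exactly `2 m ^ 2 - m` with high probability over `R`.
-/

namespace Pool.Agent.Results.MP_a662a5_lc.RandomRowsExactCount

open Pool.Agent.H683R2.FS Pool.Agent.Y640.FM Pool.Agent.X242.FRand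
open scoped ENNReal

/-- `prob p` and `expected f` refer to a uniformly random `m`-element set `R` of rows. -/
theorem result :
    -- (1) one set of columns for which a random set of rows needs `2 m ^ 2 - m` operations
    (∀ m d : ℕ, d.Prime → m ≤ d → ∃ C : Fin m → Fin d, StrictMono C ∧
      (prob fun R : Fin m → Fin d => ¬ Needs (2 * m ^ 2 - m) R C) ≤
        ((2 ^ (42 * m ^ 6) : ℕ) : ℝ≥0∞) / d) ∧
    -- (2) the same for smaller `d`, with `s / (s + 1) * m ^ 2 - m` operations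
    (∀ s m d : ℕ, 1 ≤ m → d.Prime → m ≤ d → ∃ C : Fin m → Fin d, StrictMono C ∧
      (prob fun R : Fin m → Fin d => ¬ Needs (s * m ^ 2 / (s + 1) - m) R C) ≤
        (((2 * m) ^ ((8 * s + 7) * m ^ 2) : ℕ) : ℝ≥0∞) / d) ∧
    -- (3) one input `(d, C, v)` for countably many algorithms, which need not be correct
    (∀ (m : ℕ) (ε : ℝ≥0∞), 0 < ε → ∃ d₀ : ℕ, ∀ d : ℕ, d₀ ≤ d → d.Prime →
      ∃ C : Fin m → Fin d, StrictMono C ∧ ∀ A : ℕ → Alg, ∃ v : Fin m → ℂ, ∀ i : ℕ,
        (prob fun R : Fin m → Fin d => (A i m d R C).run v = fourierProd R C v ∧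
          (A i m d R C).ops v < 2 * m ^ 2 - m) ≤ ε) ∧
    -- (4) expected time of randomised algorithms which are always correct
    (∀ (m : ℕ) (ε : ℝ≥0∞), 0 < ε → ∀ (p : PMF ℕ) (A : ℕ → Alg), (∀ i, (A i).Correct) →
      ∃ (d : ℕ) (C : Fin m → Fin d) (v : Fin m → ℂ), m ≤ d ∧ StrictMono C ∧
        (∑' i, p i * prob fun R : Fin m → Fin d => (A i m d R C).ops v < 2 * m ^ 2 - m) ≤ ε ∧
        (1 - ε) * (2 * m ^ 2 - m : ℕ) ≤
          ∑' i, p i * expected fun R : Fin m → Fin d => (A i m d R C).ops v) ∧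
    -- (5) the negated form of the question
    (¬ ∃ (A : Alg) (T : ℕ → ℝ), A.Correct ∧ T =o[Filter.atTop] (fun m => (m : ℝ) ^ 2) ∧
      ((∀ (m d : ℕ) (C : Fin m → Fin d), m ≤ d → StrictMono C → ∀ v : Fin m → ℂ,
          (expected fun R : Fin m → Fin d => (A m d R C).ops v) ≤ ENNReal.ofReal (T m)) ∨
        (∀ ε : ℝ≥0∞, 0 < ε → ∀ᶠ m : ℕ in Filter.atTop, ∀ (d : ℕ) (C : Fin m → Fin d), m ≤ d →
          StrictMono C → ∀ v : Fin m → ℂ,
            (prob fun R : Fin m → Fin d => T m < ((A m d R C).ops v : ℝ)) ≤ ε))) ∧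
    -- (6) the bound `2 m ^ 2 - m` is attained by an algorithm, for all inputs
    (∃ A : Alg, A.Correct ∧ ∀ (m d : ℕ) (R C : Fin m → Fin d) (v : Fin m → ℂ),
      (A m d R C).ops v ≤ 2 * m ^ 2 - m) := by
  classical
  have h3 : ∀ (m : ℕ) (ε : ℝ≥0∞), 0 < ε → ∃ d₀ : ℕ, ∀ d : ℕ, d₀ ≤ d → d.Prime →
      ∃ C : Fin m → Fin d, StrictMono C ∧ ∀ A : ℕ → Alg, ∃ v : Fin m → ℂ, ∀ i : ℕ,
        (prob fun R : Fin m → Fin d => (A i m d R C).run v = fourierProd R C v ∧
          (A i m d R C).ops v < 2 * m ^ 2 - m) ≤ ε := by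
    intro m ε hε
    obtain ⟨d₀, hd₀⟩ := div_le_of_large (2 ^ (42 * m ^ 6)) hε
    refine ⟨max d₀ m, fun d hd hp => ?_⟩
    obtain ⟨C, hC, hprob⟩ := exists_cols_A hp ((le_max_right d₀ m).trans hd)
    refine ⟨C, hC, fun A => ?_⟩
    obtain ⟨v, hv⟩ := one_vector (L := 2 * m ^ 2 - m) C (fun i R => A i m d R C)
    refine ⟨v, fun i => ?_⟩
    refine le_trans (prob_mono ?_) (hprob.trans (hd₀ d ((le_max_left d₀ m).trans hd)))
    rintro R _ ⟨h1, h2⟩ hN
    exact absurd (hv i R hN h1) (not_le.2 h2)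
  have h4 : ∀ (m : ℕ) (ε : ℝ≥0∞), 0 < ε → ∀ (p : PMF ℕ) (A : ℕ → Alg), (∀ i, (A i).Correct) →
      ∃ (d : ℕ) (C : Fin m → Fin d) (v : Fin m → ℂ), m ≤ d ∧ StrictMono C ∧
        (∑' i, p i * prob fun R : Fin m → Fin d => (A i m d R C).ops v < 2 * m ^ 2 - m) ≤ ε ∧
        (1 - ε) * (2 * m ^ 2 - m : ℕ) ≤
          ∑' i, p i * expected fun R : Fin m → Fin d => (A i m d R C).ops v := by
    intro m ε hε p A hA
    obtain ⟨d₀, hd₀⟩ := h3 m ε hε
    obtain ⟨d, hd, hp⟩ := Nat.exists_infinite_primes (max d₀ m)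
    obtain ⟨C, hC, hall⟩ := hd₀ d ((le_max_left d₀ m).trans hd) hp
    obtain ⟨v, hv⟩ := hall A
    have hmd : m ≤ d := (le_max_right d₀ m).trans hd
    have hlt : ∀ i, (prob fun R : Fin m → Fin d => (A i m d R C).ops v < 2 * m ^ 2 - m) ≤ ε :=
      fun i => le_trans (prob_mono fun R hR h => ⟨hA i m d R C hR hC v, h⟩) (hv i)
    refine ⟨d, C, v, hmd, hC, ?_, ?_⟩
    · calc (∑' i, p i * prob fun R : Fin m → Fin d => (A i m d R C).ops v < 2 * m ^ 2 - m)
          ≤ ∑' i, p i * ε := ENNReal.tsum_le_tsum fun i => by gcongr; exact hlt i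
        _ = ε := by rw [ENNReal.tsum_mul_right, p.tsum_coe, one_mul]
    · calc (1 - ε) * (2 * m ^ 2 - m : ℕ) = ∑' i, p i * ((1 - ε) * (2 * m ^ 2 - m : ℕ)) := by
            rw [ENNReal.tsum_mul_right, p.tsum_coe, one_mul]
        _ ≤ ∑' i, p i * expected fun R : Fin m → Fin d => (A i m d R C).ops v := by
            apply ENNReal.tsum_le_tsum
            intro i
            gcongr
            refine le_trans ?_ (expected_ge hmd _ (2 * m ^ 2 - m))
            gcongr
            exact hlt i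
  refine ⟨fun m d hp hmd => exists_cols_A hp hmd, fun s m d hm hp hmd => exists_cols_B hm hp hmd,
    h3, h4, ?_, ⟨direct, fun m d R C _ _ v => (direct_spec R C v).1, fun m d R C v => ?_⟩⟩
  · rintro ⟨A, T, hA, hT, hor⟩
    rw [Asymptotics.isLittleO_iff] at hT
    have hT2 := hT (c := 1 / 4) (by norm_num)
    have hsmall : ∀ᶠ m : ℕ in Filter.atTop, 1 ≤ m ∧ T m ≤ (m : ℝ) ^ 2 / 4 := by
      filter_upwards [hT2, Filter.eventually_ge_atTop 1] with m h1 h2
      refine ⟨h2, ?_⟩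
      rw [Real.norm_of_nonneg (by positivity : (0 : ℝ) ≤ (m : ℝ) ^ 2)] at h1
      have := (le_abs_self (T m)).trans h1
      linarith
    have hL : ∀ m : ℕ, 1 ≤ m → m ^ 2 ≤ 2 * m ^ 2 - m := by
      intro m hm
      have h5 : m ≤ m ^ 2 := Nat.le_self_pow (by norm_num) m
      omega
    have hp1 : ∀ f : ℕ → ℝ≥0∞, (∑' i, PMF.pure 0 i * f i) = f 0 := by
      intro f
      rw [tsum_eq_single 0]
      · simp [PMF.pure_apply]
      · intro i hi
        simp [PMF.pure_apply, hi]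
    rcases hor with hexp | hprob
    · obtain ⟨m, hm1, hm2⟩ := hsmall.exists
      obtain ⟨d, C, v, hmd, hC, _, hge⟩ := h4 m (1 / 2) (by norm_num) (PMF.pure 0) (fun _ => A)
        (fun _ => hA)
      rw [hp1] at hge
      have h6 := hge.trans (hexp m d C hmd hC v)
      have h7 : (1 - 1 / 2 : ℝ≥0∞) = 1 / 2 := by
        rw [one_div]
        exact ENNReal.one_sub_inv_two
      rw [h7] at h6
      have h8 : (1 / 2 : ℝ≥0∞) * (2 * m ^ 2 - m : ℕ) =
          ENNReal.ofReal (1 / 2 * ((2 * m ^ 2 - m : ℕ) : ℝ)) := by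
        rw [ENNReal.ofReal_mul (by norm_num), ENNReal.ofReal_natCast]
        congr 1
        rw [ENNReal.ofReal_div_of_pos (by norm_num)]
        simp
      rw [h8] at h6
      have h9 : (m : ℝ) ^ 2 ≤ ((2 * m ^ 2 - m : ℕ) : ℝ) := by exact_mod_cast hL m hm1
      have h10 : (1 : ℝ) ≤ m := by exact_mod_cast hm1
      have hpos : (0 : ℝ) < (m : ℝ) ^ 2 := by positivity
      rcases le_or_gt 0 (T m) with hTm | hTm
      · have h11 := (ENNReal.ofReal_le_ofReal_iff hTm).1 h6
        nlinarith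
      · rw [ENNReal.ofReal_of_nonpos hTm.le] at h6
        have h12 : ENNReal.ofReal (1 / 2 * ((2 * m ^ 2 - m : ℕ) : ℝ)) = 0 := le_antisymm h6 zero_le
        rw [ENNReal.ofReal_eq_zero] at h12
        nlinarith
    · have hev := hprob (1 / 4) (by norm_num)
      obtain ⟨m, ⟨hm1, hm2⟩, hm3⟩ := (hsmall.and hev).exists
      obtain ⟨d, C, v, hmd, hC, hle, _⟩ := h4 m (1 / 4) (by norm_num) (PMF.pure 0) (fun _ => A)
        (fun _ => hA)
      rw [hp1] at hle
      have h13 := hm3 d C hmd hC v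
      have h9 : (m : ℝ) ^ 2 ≤ ((2 * m ^ 2 - m : ℕ) : ℝ) := by exact_mod_cast hL m hm1
      have h10 : (1 : ℝ) ≤ m := by exact_mod_cast hm1
      have h14 : (1 : ℝ≥0∞) ≤
          (prob fun R : Fin m → Fin d => (A m d R C).ops v < 2 * m ^ 2 - m) +
          prob fun R : Fin m → Fin d => T m < ((A m d R C).ops v : ℝ) := by
        apply prob_cover hmd
        intro R _
        rcases lt_or_ge ((A m d R C).ops v) (2 * m ^ 2 - m) with h | h
        · exact Or.inl h
        · right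
          have h15 : ((2 * m ^ 2 - m : ℕ) : ℝ) ≤ ((A m d R C).ops v : ℝ) := by exact_mod_cast h
          nlinarith
      have h16 := h14.trans (add_le_add hle h13)
      have h17 : (1 / 4 + 1 / 4 : ℝ≥0∞) < 1 := by
        have : (1 / 4 + 1 / 4 : ℝ≥0∞) = ENNReal.ofReal (1 / 2) := by
          rw [show (1 / 2 : ℝ) = 1 / 4 + 1 / 4 by norm_num, ENNReal.ofReal_add (by norm_num)
            (by norm_num), ENNReal.ofReal_div_of_pos (by norm_num)]
          simp
        rw [this, ENNReal.ofReal_lt_one]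
        norm_num
      exact absurd h16 (not_le.2 h17)
  · have := (direct_spec R C v).2
    omega

end Pool.Agent.Results.MP_a662a5_lc.RandomRowsExactCount
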